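import Mathlib
import Pool.Agent.W42.RG.Defs2
import Pool.Agent.W637.LX.TRANS

set_option autoImplicit false
set_option linter.unusedSectionVars false
set_option linter.unusedVariables false

/-! Project LY, part MAUE: eigenfunctions are invariant under the brackets. -/

namespace Pool.Agent.W756.LY

open Finset Filter Topology MeasureTheory Pool.Agent.W42.RN Pool.Agent.W42.RL Pool.Agent.W42.RG
open Pool.Agent.W637.LX (br br_apply br_pow hasSum_br exp_inv)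

section koop

variable {X : Type} [MeasurableSpace X] {μ : Measure X} [IsProbabilityMeasure μ]

/-- composition -/
noncomputable def KM {S : X → X} (hS : MeasurePreserving S μ μ) : Lp ℂ 2 μ →ₗᵢ[ℂ] Lp ℂ 2 μ :=
  Lp.compMeasurePreservingₗᵢ ℂ S hS

theorem KM_coe {S : X → X} (hS : MeasurePreserving S μ μ) (g : Lp ℂ 2 μ) :
    KM hS g =ᵐ[μ] fun p => g (S p) :=
  Lp.coeFn_compMeasurePreserving g hS

theorem KM_toL {S : X → X} (hS : MeasurePreserving S μ μ) {f : X → ℂ} (hf : Bd f) :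
    KM hS (toL hf) =ᵐ[μ] fun p => f (S p) := by
  have g1 := hS.quasiMeasurePreserving.ae_eq_comp (toL_coe (μ := μ) hf)
  filter_upwards [KM_coe hS (toL hf), g1] with p g2 g3
  rw [g2]; exact g3

theorem KM_same {S S' : X → X} (hS : MeasurePreserving S μ μ) (hS' : MeasurePreserving S' μ μ)
    (h : Same μ S S') (g : Lp ℂ 2 μ) : KM hS g = KM hS' g := by
  apply Lp.ext
  have hgm : Measurable (g : X → ℂ) := (Lp.stronglyMeasurable g).measurable
  filter_upwards [KM_coe hS g, KM_coe hS' g, h.fn hgm] with p g1 g2 g3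
  rw [g1, g2, g3]

theorem KM_comp {S S' : X → X} (hS : MeasurePreserving S μ μ) (hS' : MeasurePreserving S' μ μ)
    (g : Lp ℂ 2 μ) : KM hS (KM hS' g) = KM (hS'.comp hS) g := by
  apply Lp.ext
  have h2 := hS.quasiMeasurePreserving.ae_eq_comp (KM_coe hS' g)
  filter_upwards [KM_coe hS (KM hS' g), h2, KM_coe (hS'.comp hS) g] with p g1 g2 g3
  rw [g1, g3]
  exact g2

theorem KM_id (h : MeasurePreserving (id : X → X) μ μ) (g : Lp ℂ 2 μ) : KM h g = g := by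
  apply Lp.ext
  filter_upwards [KM_coe h g] with p g1
  rw [g1]
  rfl

theorem KM_fix {S : X → X} (hS : MeasurePreserving S μ μ) {f : X → ℂ} (hf : Bd f) :
    KM hS (toL hf) = toL hf ↔ (fun p => f (S p)) =ᵐ[μ] f := by
  constructor
  · intro h
    have h1 := KM_toL hS hf
    rw [h] at h1
    exact h1.symm.trans (toL_coe hf)
  · intro h
    apply Lp.ext
    exact ((KM_toL hS hf).trans h).trans (toL_coe hf).symm

theorem dist_bd {S S' : X → X} (hS : MeasurePreserving S μ μ) (hS' : MeasurePreserving S' μ μ)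
    {f : X → ℂ} (hf : Bd f) {C : ℝ} (hC : ∀ p, ‖f p‖ ≤ C) :
    dist (KM hS (toL hf)) (KM hS' (toL hf)) ^ 2 ≤ 2 * C * ∫ p, ‖f (S p) - f (S' p)‖ ∂μ := by
  rw [dist_eq_norm, norm_sq_int, ← integral_const_mul]
  have e2 : (fun p => ‖(KM hS (toL hf) - KM hS' (toL hf)) p‖ ^ 2) =ᵐ[μ]
      fun p => ‖f (S p) - f (S' p)‖ ^ 2 := by
    filter_upwards [Lp.coeFn_sub (KM hS (toL hf)) (KM hS' (toL hf)), KM_toL hS hf, KM_toL hS' hf]
      with p g1 g2 g3
    rw [g1, Pi.sub_apply, g2, g3]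
  rw [integral_congr_ae e2]
  have hd : Bd fun p => f (S p) - f (S' p) := (hf.comp hS.measurable).sub (hf.comp hS'.measurable)
  apply integral_mono
  · have := (hd.mul hd).int (μ := μ)
    refine this.norm.congr (Eventually.of_forall fun p => ?_)
    simp only [norm_mul]; ring
  · exact hd.int.norm.const_mul _
  · intro p
    have g1 : ‖f (S p) - f (S' p)‖ ≤ 2 * C := by
      refine (norm_sub_le _ _).trans ?_
      have g2 := hC (S p)
      have g3 := hC (S' p)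
      linarith
    show ‖f (S p) - f (S' p)‖ ^ 2 ≤ 2 * C * ‖f (S p) - f (S' p)‖
    rw [pow_two]
    exact mul_le_mul_of_nonneg_right g1 (norm_nonneg _)

/-- bounded functions are dense -/
theorem dense_bd (g : Lp ℂ 2 μ) {ε : ℝ} (hε : 0 < ε) :
    ∃ (f : X → ℂ) (hf : Bd f), dist g (toL hf) < ε := by
  obtain ⟨f, hf1, hf2⟩ := (Lp.memLp g).exists_simpleFunc_eLpNorm_sub_lt (by norm_num)
    (ε := ENNReal.ofReal ε) (by simpa using hε)
  have hb : Bd (f : X → ℂ) := by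
    obtain ⟨C, hC⟩ := f.exists_forall_norm_le
    exact ⟨f.measurable, C, hC⟩
  refine ⟨f, hb, ?_⟩
  rw [Lp.dist_def]
  have h1 : eLpNorm ((g : X → ℂ) - ((toL hb : Lp ℂ 2 μ) : X → ℂ)) 2 μ =
      eLpNorm ((g : X → ℂ) - (f : X → ℂ)) 2 μ := by
    apply eLpNorm_congr_ae
    filter_upwards [toL_coe (μ := μ) hb] with p hp
    rw [Pi.sub_apply, Pi.sub_apply, hp]
  rw [h1]
  exact ENNReal.toReal_lt_of_lt_ofReal hf1

end koop

section main

variable {X : Type} [MeasurableSpace X]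
variable {𝔤 : Type} [LieRing 𝔤] [LieAlgebra ℝ 𝔤] [FiniteDimensional ℝ 𝔤] [TopologicalSpace 𝔤]
  [IsTopologicalAddGroup 𝔤] [ContinuousSMul ℝ 𝔤] [T2Space 𝔤]
variable {μ : Measure X} [IsProbabilityMeasure μ] {E : 𝔤 → X → X} {n : ℕ}

/-- the action in coordinates -/
noncomputable def Phi (hE : GAct μ E) (e : 𝔤 ≃L[ℝ] (Fin n → ℝ)) (v : Fin n → ℝ) :
    Lp ℂ 2 μ →ₗᵢ[ℂ] Lp ℂ 2 μ := KM (hE.mp (-(e.symm v)))

theorem cont_Phi (hE : GAct μ E) (e : 𝔤 ≃L[ℝ] (Fin n → ℝ)) (g : Lp ℂ 2 μ) :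
    Continuous fun v => Phi hE e v g := by
  have hb : ∀ {f : X → ℂ} (hf : Bd f), Continuous fun v => Phi hE e v (toL hf) := by
    intro f hf
    obtain ⟨C, hC⟩ := hf.bdd
    rw [continuous_iff_continuousAt]
    intro Y₀
    rw [ContinuousAt, tendsto_iff_dist_tendsto_zero]
    have h1 := hE.cont f hf (-(e.symm Y₀))
    have h2 : Tendsto (fun Y => -(e.symm Y)) (𝓝 Y₀) (𝓝 (-(e.symm Y₀))) :=
      (e.symm.continuous.neg).tendsto Y₀
    have h3 := (h1.comp h2).const_mul (2 * C)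
    rw [mul_zero] at h3
    have h4 : Tendsto (fun Y => dist (Phi hE e Y (toL hf)) (Phi hE e Y₀ (toL hf)) ^ 2) (𝓝 Y₀)
        (𝓝 0) := squeeze_zero (fun v => by positivity) (fun v => dist_bd _ _ hf hC) h3
    have h5 := (Real.continuous_sqrt.tendsto 0).comp h4
    rw [Real.sqrt_zero] at h5
    refine h5.congr fun v => ?_
    exact Real.sqrt_sq dist_nonneg
  apply continuous_of_uniform_approx_of_continuous
  intro u hu
  obtain ⟨ε, hε, h⟩ := Metric.mem_uniformity_dist.1 hu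
  obtain ⟨f, hf, hd⟩ := dense_bd g hε
  refine ⟨fun v => Phi hE e v (toL hf), hb hf, fun v => h ?_⟩
  rw [LinearIsometry.dist_map]
  exact hd

theorem iso_Phi (hE : GAct μ E) (e : 𝔤 ≃L[ℝ] (Fin n → ℝ))
    (hloc : ∃ C ρ : ℝ, 0 < ρ ∧
    ∀ Y Z : 𝔤, ‖e Y‖ ≤ ρ → ‖e Z‖ ≤ ρ →
      ∃ V : 𝔤, ‖e (V - Y - Z)‖ ≤ C * ‖e ⁅Y, Z⁆‖ ∧ Same μ (E Y ∘ E Z) (E V)) :
    Iso (br e) (fun v g => Phi hE e v g) := by
  refine ⟨?_, ?_, ?_, ?_, ?_, ?_, ?_⟩
  · intro Y p q
    exact LinearIsometry.dist_map _ _ _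
  · intro p
    show KM _ p = p
    have h0 : Same μ (E (-(e.symm 0))) id := by
      rw [map_zero, neg_zero]
      exact hE.zero
    rw [KM_same _ (MeasurePreserving.id μ) h0, KM_id]
  · intro Y s t p
    show KM _ p = KM _ (KM _ p)
    rw [KM_comp]
    apply KM_same
    have h := hE.line (e.symm Y) (-t) (-s)
    have e1 : -(e.symm ((s + t) • Y)) = (-t + -s) • e.symm Y := by
      rw [map_smul, ← neg_smul]; congr 1; ring
    have e2 : -(e.symm (t • Y)) = (-t) • e.symm Y := by rw [map_smul, neg_smul]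
    have e3 : -(e.symm (s • Y)) = (-s) • e.symm Y := by rw [map_smul, neg_smul]
    rw [e1, e2, e3]
    exact h
  · intro Y Z p
    show KM _ (KM _ p) = KM _ (KM _ p)
    rw [KM_comp, KM_comp]
    apply KM_same
    have h1 := hasSum_br e (-Y) (-(NormedSpace.exp (br e Y) Z))
    have h2 : NormedSpace.exp (br e (-Y)) (-(NormedSpace.exp (br e Y) Z)) = -Z := by
      rw [map_neg, exp_inv]
    rw [h2, map_neg e.symm (NormedSpace.exp (br e Y) Z), map_neg e.symm Y, map_neg e.symm Z] at h1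
    exact (hE.conj _ _ _ h1).symm
  · intro p
    exact cont_Phi hE e p
  · obtain ⟨C, ρ, hρ, h⟩ := hloc
    refine ⟨C, ρ, hρ, fun Y Z hY hZ => ?_⟩
    obtain ⟨V, hV1, hV2⟩ := h (-(e.symm Z)) (-(e.symm Y)) (by simpa using hZ) (by simpa using hY)
    refine ⟨-(e V), ?_, fun p => ?_⟩
    · have e1 : e (V - -(e.symm Z) - -(e.symm Y)) = -(-(e V) - Y - Z) := by
        simp only [map_sub, map_neg, ContinuousLinearEquiv.apply_symm_apply]
        abel
      have e2 : e ⁅-(e.symm Z), -(e.symm Y)⁆ = -(br e Y Z) := by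
        rw [br_apply, neg_lie, lie_neg, neg_neg, ← lie_skew, map_neg]
      rw [e1, e2, norm_neg, norm_neg] at hV1
      exact hV1
    · show KM _ (KM _ p) = KM _ p
      rw [KM_comp]
      apply KM_same
      have e3 : -(e.symm (-(e V))) = V := by simp
      rw [e3]
      exact hV2
  · intro Y
    rw [br_apply, lie_self, map_zero]

end main

/-- **LY-MAUE** -/
theorem t_MAUE (h : S_LIN) (hs : S_SUB) : S_MAUE := by
  intro X _ 𝔤 _ _ _ _ _ _ _ μ _ E hE K W hc f hf hW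
  obtain ⟨n, e, C, ρ, hρ, hloc⟩ := hE.loc
  have hI : Iso (br e) (fun v g => Phi hE e v g) := iso_Phi hE e ⟨C, ρ, hρ, hloc⟩
  obtain ⟨c, hc⟩ := hc
  have hB : Bd f := ⟨hf.1.mono (mK_le μ E _) le_rfl, hf.2⟩
  set K' : Submodule ℝ (Fin n → ℝ) := K.toSubmodule.map (e.toLinearEquiv : 𝔤 →ₗ[ℝ] (Fin n → ℝ))
    with hK'
  have hmem : ∀ Z : 𝔤, Z ∈ K → e Z ∈ K' := fun Z hZ => ⟨Z, hZ, rfl⟩
  have hfix : ∀ v : Fin n → ℝ, Phi hE e v (toL hB) = toL hB ↔
      (fun p => f (E (-(e.symm v)) p)) =ᵐ[μ] f := fun v => KM_fix _ hB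
  obtain ⟨S, hS1, hS2, hS3, hS4⟩ := h (Fin n → ℝ) (Lp ℂ 2 μ) (br e) (Phi hE e) hI (toL hB) K'
    (by
      rintro Y _ ⟨Z, hZ, rfl⟩
      have : br e Y (e Z) = e ⁅e.symm Y, Z⁆ := by rw [br_apply]; simp
      show br e Y (e Z) ∈ K'
      rw [this]
      exact hmem _ (K.lie_mem hZ))
    (by
      rintro _ ⟨Z, hZ, rfl⟩
      show Phi hE e (e Z) (toL hB) = toL hB
      rw [hfix, ContinuousLinearEquiv.symm_apply_apply]
      have h1 : SameOn (mK μ E (K : Set 𝔤)) μ (E (-Z)) id := fun A hA =>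
        hA.2 (-Z) (K.toSubmodule.neg_mem hZ)
      exact sameOn_fn h1 hf.1)
    (e W)
    (by
      intro t
      obtain ⟨a, ha, h1⟩ := hW (-t)
      refine ⟨a, ha, ?_⟩
      apply Lp.ext
      have e1 : -(e.symm (t • e W)) = (-t) • W := by
        rw [map_smul, ContinuousLinearEquiv.symm_apply_apply, neg_smul]
      have h2 : Phi hE e (t • e W) (toL hB) =ᵐ[μ] fun p => f (E (-(e.symm (t • e W))) p) :=
        KM_toL _ hB
      rw [e1] at h2
      filter_upwards [h2, h1, Lp.coeFn_smul a (toL hB : Lp ℂ 2 μ), toL_coe (μ := μ) hB]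
        with p g1 g2 g3 g4
      rw [g1, g2, g3, Pi.smul_apply, g4, smul_eq_mul])
    ⟨c, fun Y => by
      rw [br_pow, ContinuousLinearEquiv.symm_apply_apply]
      exact hmem _ (hc _)⟩
  obtain ⟨F, hF⟩ := hs (Fin n → ℝ) (Lp ℂ 2 μ) (br e) (fun v g => Phi hE e v g) hI (toL hB)
  have hF' : ∀ v : Fin n → ℝ, v ∈ F ↔ ∀ t : ℝ, Phi hE e (t • v) (toL hB) = toL hB := by
    intro v
    rw [← SetLike.mem_coe, hF]
    rfl
  let J : LieIdeal ℝ 𝔤 :=
    { S.comap (e.toLinearEquiv : 𝔤 →ₗ[ℝ] (Fin n → ℝ)) with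
      lie_mem := by
        intro x m hm
        have h1 : e m ∈ S := hm
        have h2 := hS1 (e x) (e m) h1
        rw [br_apply, ContinuousLinearEquiv.symm_apply_apply,
          ContinuousLinearEquiv.symm_apply_apply] at h2
        exact h2 }
  have hJ : ∀ Y : 𝔤, Y ∈ J ↔ e Y ∈ S := fun Y => Iff.rfl
  have hle : K ⊔ LieSubmodule.lieSpan ℝ 𝔤 {W} ≤ J := by
    refine sup_le (fun Y hY => (hJ Y).2 (hS3 (hmem Y hY))) (LieSubmodule.lieSpan_le.2 ?_)
    intro Y hY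
    rw [Set.mem_singleton_iff] at hY
    subst hY
    exact (hJ Y).2 hS2
  intro Z hZ
  have hZ1 : Z ∈ (⁅(⊤ : LieIdeal ℝ 𝔤), K ⊔ LieSubmodule.lieSpan ℝ 𝔤 {W}⁆ :
      LieSubmodule ℝ 𝔤 𝔤).toSubmodule := hZ
  rw [LieSubmodule.lieIdeal_oper_eq_linear_span'] at hZ1
  have hle2 : Submodule.span ℝ {m : 𝔤 | ∃ x ∈ (⊤ : LieIdeal ℝ 𝔤),
      ∃ y ∈ K ⊔ LieSubmodule.lieSpan ℝ 𝔤 {W}, ⁅x, y⁆ = m} ≤
      F.comap (e.toLinearEquiv : 𝔤 →ₗ[ℝ] (Fin n → ℝ)) := by
    rw [Submodule.span_le]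
    rintro _ ⟨x, -, y, hy, rfl⟩
    show e ⁅x, y⁆ ∈ F
    rw [hF']
    intro t
    have h1 := hS4 (e x) (e y) ((hJ y).1 (hle hy)) t
    rw [br_apply, ContinuousLinearEquiv.symm_apply_apply,
      ContinuousLinearEquiv.symm_apply_apply] at h1
    exact h1
  have h1 : e Z ∈ F := hle2 hZ1
  have h2 := (hF' _).1 h1 (-1)
  rw [hfix] at h2
  have e1 : -(e.symm ((-1 : ℝ) • e Z)) = Z := by simp
  rw [e1] at h2
  exact h2

end Pool.Agent.W756.LY
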